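import Mathlib

/-!
The one-or-all token game: the position with six piles of size 5 and six piles of size 6 is a
P-position.
-/

namespace Pool.Agent.Results.MP_b8aaf5_co.TwelvePiles

open Multiset

/-- A unimove: remove one token from a single pile (an empty pile is discarded). -/
def Uni (P Q : Multiset ℕ) : Prop :=
  ∃ a ∈ P, 0 < a ∧ Q = (P.erase a + {a - 1}).filter (fun x => 0 < x)

/-- An allmove: remove one token from every pile (empty piles are discarded). -/
def All (P Q : Multiset ℕ) : Prop :=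
  P ≠ 0 ∧ Q = (P.map (fun x => x - 1)).filter (fun x => 0 < x)

/-- A move. -/
def Move (P Q : Multiset ℕ) : Prop := Uni P Q ∨ All P Q

/-- The player to move at `P` has a winning strategy (normal play): there is a move to some `Q` such
that after every reply the same player again has a winning strategy. -/
inductive MoverWins : Multiset ℕ → Prop
  | step (P Q : Multiset ℕ) (h : Move P Q) (h' : ∀ R, Move Q R → MoverWins R) : MoverWins P

/-- `P` is a P-position: after every move of the player who is about to move, the other player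
has a winning strategy. -/
def PPosition (P : Multiset ℕ) : Prop := ∀ Q, Move P Q → MoverWins Q

/-- The set `S_k` of the predicted numbers of odd piles in P-positions. -/
def S (k : ℕ) : Set ℕ :=
  if k % 2 = 1 then {j | j ≤ k ∧ j % 2 = 0}
  else if k % 4 = 0 then
    {j | (j % 2 = 0 ∧ j ≤ k / 2 - 2) ∨ (j % 2 = 1 ∧ k / 2 + 1 ≤ j ∧ j ≤ k - 1)}
  else {j | (j % 2 = 0 ∧ j ≤ k / 2 - 1) ∨ (j % 2 = 1 ∧ k / 2 + 2 ≤ j ∧ j ≤ k - 1)}

/-! ### Codes -/

/-- The number of piles of size `a` in the position with code `n`. -/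
def dg (n a : ℕ) : ℕ := if a = 0 then 0 else n / 16 ^ (a - 1) % 16

/-- The position with code `n`. -/
def toM (n : ℕ) : Multiset ℕ :=
  replicate (dg n 1) 1 + replicate (dg n 2) 2 + replicate (dg n 3) 3 + replicate (dg n 4) 4 +
    replicate (dg n 5) 5 + replicate (dg n 6) 6

theorem dg_large (n : ℕ) (hn : n < 16 ^ 6) (a : ℕ) (ha : 6 < a) : dg n a = 0 := by
  unfold dg
  rw [if_neg (by omega)]
  have : n < 16 ^ (a - 1) := lt_of_lt_of_le hn (Nat.pow_le_pow_right (by norm_num) (by omega))
  rw [Nat.div_eq_of_lt this]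

theorem count_toM (n : ℕ) (hn : n < 16 ^ 6) (a : ℕ) : (toM n).count a = dg n a := by
  by_cases ha : a ≤ 6
  · unfold toM
    simp only [count_add, count_replicate]
    have h0 : dg n 0 = 0 := rfl
    interval_cases a
    · rw [h0]; rfl
    · simp
    · simp
    · simp
    · simp
    · simp
    · simp
  · rw [dg_large n hn a (by omega), count_eq_zero]
    intro h
    simp only [toM, mem_add, mem_replicate] at h
    omega

theorem dg_div (n a : ℕ) (ha : a ≠ 0) : dg (n / 16) a = dg n (a + 1) := by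
  unfold dg
  rw [if_neg ha, if_neg (by omega), Nat.div_div_eq_div_mul]
  have e : 16 * 16 ^ (a - 1) = 16 ^ (a + 1 - 1) := by
    rw [show a + 1 - 1 = (a - 1) + 1 by omega, pow_succ]
    ring
  rw [e]

/-- The code after a unimove on a pile of size `a`. -/
def un (n a : ℕ) : ℕ := n - 16 ^ (a - 1) + (if a = 1 then 0 else 16 ^ (a - 2))

/-- The number of tokens. -/
def tok (n : ℕ) : ℕ := dg n 1 + 2 * dg n 2 + 3 * dg n 3 + 4 * dg n 4 + 5 * dg n 5 + 6 * dg n 6

theorem dg_un (n a j : ℕ) (hn : n < 16 ^ 6) (ha1 : 1 ≤ a) (ha6 : a ≤ 6) (h : 0 < dg n a)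
    (h' : a = 1 ∨ dg n (a - 1) < 15) (hj1 : 1 ≤ j) (hj6 : j ≤ 6) :
    dg (un n a) j + (if j = a then 1 else 0) = dg n j + (if j = a - 1 then 1 else 0) := by
  interval_cases a <;> interval_cases j <;> simp [dg, un] at * <;> omega

theorem un_lt (n a : ℕ) (hn : n < 16 ^ 6) (ha1 : 1 ≤ a) (ha6 : a ≤ 6) (h : 0 < dg n a) :
    un n a < 16 ^ 6 := by
  interval_cases a <;> simp [dg, un] at * <;> omega

theorem tok_un (n a : ℕ) (hn : n < 16 ^ 6) (ha1 : 1 ≤ a) (ha6 : a ≤ 6) (h : 0 < dg n a)
    (h' : a = 1 ∨ dg n (a - 1) < 15) : tok (un n a) < tok n := by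
  have h1 := dg_un n a 1 hn ha1 ha6 h h' (by norm_num) (by norm_num)
  have h2 := dg_un n a 2 hn ha1 ha6 h h' (by norm_num) (by norm_num)
  have h3 := dg_un n a 3 hn ha1 ha6 h h' (by norm_num) (by norm_num)
  have h4 := dg_un n a 4 hn ha1 ha6 h h' (by norm_num) (by norm_num)
  have h5 := dg_un n a 5 hn ha1 ha6 h h' (by norm_num) (by norm_num)
  have h6 := dg_un n a 6 hn ha1 ha6 h h' (by norm_num) (by norm_num)
  unfold tok
  interval_cases a <;> simp at h1 h2 h3 h4 h5 h6 <;> omega

theorem toM_un (n a : ℕ) (hn : n < 16 ^ 6) (ha1 : 1 ≤ a) (ha6 : a ≤ 6) (h : 0 < dg n a)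
    (h' : a = 1 ∨ dg n (a - 1) < 15) :
    toM (un n a) = ((toM n).erase a + {a - 1}).filter (fun x => 0 < x) := by
  ext j
  rw [count_toM _ (un_lt n a hn ha1 ha6 h)]
  by_cases hj0 : j = 0
  · subst hj0
    rw [count_filter_of_neg (by norm_num)]
    rfl
  · rw [count_filter_of_pos (by omega), count_add, count_singleton]
    by_cases hj6 : j ≤ 6
    · have h1 := dg_un n a j hn ha1 ha6 h h' (by omega) hj6
      by_cases hja : j = a
      · subst hja
        rw [count_erase_self, count_toM n hn]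
        simp only [if_true] at h1
        rw [if_neg (by omega)] at h1 ⊢
        omega
      · rw [count_erase_of_ne hja, count_toM n hn]
        rw [if_neg hja] at h1
        omega
    · have e1 : dg (un n a) j = 0 := dg_large _ (un_lt n a hn ha1 ha6 h) j (by omega)
      have e2 : dg n j = 0 := dg_large n hn j (by omega)
      rw [count_erase_of_ne (by omega), count_toM n hn, e1, e2, if_neg (by omega)]

theorem pos_of_mem {n x : ℕ} (hx : x ∈ toM n) : 1 ≤ x ∧ x ≤ 6 := by
  simp only [toM, mem_add, mem_replicate] at hx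
  omega

theorem toM_all (n : ℕ) (hn : n < 16 ^ 6) :
    toM (n / 16) = ((toM n).map (fun x => x - 1)).filter (fun x => 0 < x) := by
  ext j
  have hlt : n / 16 < 16 ^ 6 := lt_of_le_of_lt (Nat.div_le_self _ _) hn
  rw [count_toM _ hlt]
  by_cases hj0 : j = 0
  · subst hj0
    rw [count_filter_of_neg (by norm_num)]
    rfl
  · rw [count_filter_of_pos (by omega), count_map]
    have e : (toM n).filter (fun x => j = x - 1) = (toM n).filter (fun x => j + 1 = x) := by
      apply filter_congr
      intro x hx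
      have := pos_of_mem hx
      constructor <;> intro h <;> omega
    rw [e, ← count_eq_card_filter_eq (toM n) (j + 1), count_toM n hn, dg_div n j hj0]

theorem eq_zero_of (n : ℕ) (hn : n < 16 ^ 6) (h1 : dg n 1 = 0) (h2 : dg n 2 = 0)
    (h3 : dg n 3 = 0) (h4 : dg n 4 = 0) (h5 : dg n 5 = 0) (h6 : dg n 6 = 0) : n = 0 := by
  simp [dg] at h1 h2 h3 h4 h5 h6
  omega

theorem tok_all (n : ℕ) (hn : n < 16 ^ 6) (h0 : n ≠ 0) : tok (n / 16) < tok n := by
  have e1 : dg (n / 16) 1 = dg n 2 := dg_div n 1 (by norm_num)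
  have e2 : dg (n / 16) 2 = dg n 3 := dg_div n 2 (by norm_num)
  have e3 : dg (n / 16) 3 = dg n 4 := dg_div n 3 (by norm_num)
  have e4 : dg (n / 16) 4 = dg n 5 := dg_div n 4 (by norm_num)
  have e5 : dg (n / 16) 5 = dg n 6 := dg_div n 5 (by norm_num)
  have e6 : dg (n / 16) 6 = dg n 7 := dg_div n 6 (by norm_num)
  have e7 : dg n 7 = 0 := dg_large n hn 7 (by norm_num)
  unfold tok
  rw [e1, e2, e3, e4, e5, e6, e7]
  by_contra hcon
  apply h0
  apply eq_zero_of n hn <;> omega

theorem toM_ne_zero (n : ℕ) (hn : n < 16 ^ 6) : toM n ≠ 0 ↔ n ≠ 0 := by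
  constructor
  · rintro h rfl
    exact h (by decide)
  · intro h0 h
    have hc : ∀ a, dg n a = 0 := by
      intro a
      rw [← count_toM n hn, h, count_zero]
    exact h0 (eq_zero_of n hn (hc 1) (hc 2) (hc 3) (hc 4) (hc 5) (hc 6))

/-- The certificate: codes of P-positions. -/
def L : List ℕ :=
  [0, 16, 18, 20, 22, 24, 26, 32, 34, 36, 38, 40, 42, 48, 64, 66, 68, 70, 80, 84, 86, 96, 98,
   100, 307, 309, 311, 528, 530, 532, 534, 536, 560, 562, 564, 566, 592, 594, 596, 624, 626,
   784, 786, 788, 790, 792, 816, 818, 820, 822, 848, 850, 852, 880, 882, 912, 1040, 1042, 1044,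
   1046, 1072, 1074, 1076, 1104, 1106, 1296, 1298, 1300, 1328, 1330, 1360, 1552, 1554, 4096,
   4098, 4112, 4114, 4144, 4353, 4385, 4387, 4389, 4391, 8194, 8224, 8465, 8467, 8469, 8471,
   8720, 8722, 8724, 8726, 8752, 8754, 8756, 8784, 8786, 8816, 12800, 12802, 12804, 12806,
   12832, 12834, 12836, 12864, 12866, 12896, 13312, 13314, 13316, 13344, 13346, 13376, 13824,
   13826, 13856, 16384, 16386, 16402, 16416, 16418, 16434, 16448, 16450, 16466, 16480, 16482,
   16512, 16657, 16659, 16898, 16914, 16928, 16930, 16960, 16976, 16992, 17169, 17424, 17440,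
   17456, 17472, 17681, 17936, 17952, 18432, 20480, 20482, 20498, 20514, 20530, 20546, 20562,
   20755, 20817, 21010, 21265, 21297, 21520, 21552, 21777, 22032, 24576, 24578, 24608, 24610,
   24626, 24642, 24656, 24849, 25090, 25106, 25122, 25136, 25600, 25602, 25616, 25632, 356352,
   394512, 402192, 409872, 413952, 6684672]

/-- Some option of the position with code `y` is in the certificate. -/
def reply (y : ℕ) : Bool :=
  (decide (y ≠ 0) && L.contains (y / 16)) ||
  [1, 2, 3, 4, 5, 6].any (fun a => decide (0 < dg y a) && decide (a = 1 ∨ dg y (a - 1) < 15) &&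
    L.contains (un y a))

/-- The check of a position of the certificate. -/
def ok (n : ℕ) : Bool :=
  decide (n < 16 ^ 6) && (decide (n = 0) || reply (n / 16)) &&
  [1, 2, 3, 4, 5, 6].all (fun a => decide (dg n a = 0) ||
    (decide (a = 1 ∨ dg n (a - 1) < 15) && reply (un n a)))

theorem check : ∀ n ∈ L, ok n = true := by decide +kernel

theorem mem_six {a : ℕ} (h : a ∈ [1, 2, 3, 4, 5, 6]) : 1 ≤ a ∧ a ≤ 6 := by
  simp at h; omega

theorem reply_spec (y : ℕ) (hy : y < 16 ^ 6) (h : reply y = true) :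
    ∃ z ∈ L, z < 16 ^ 6 ∧ tok z < tok y ∧ Move (toM y) (toM z) := by
  unfold reply at h
  rw [Bool.or_eq_true] at h
  rcases h with h | h
  · rw [Bool.and_eq_true, decide_eq_true_eq] at h
    obtain ⟨h0, h1⟩ := h
    refine ⟨y / 16, by simpa using h1, lt_of_le_of_lt (Nat.div_le_self _ _) hy,
      tok_all y hy h0, Or.inr ⟨(toM_ne_zero y hy).2 h0, toM_all y hy⟩⟩
  · rw [List.any_eq_true] at h
    obtain ⟨a, ha, h⟩ := h
    obtain ⟨ha1, ha6⟩ := mem_six ha
    rw [Bool.and_eq_true, Bool.and_eq_true, decide_eq_true_eq, decide_eq_true_eq] at h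
    obtain ⟨⟨h1, h2⟩, h3⟩ := h
    refine ⟨un y a, by simpa using h3, un_lt y a hy ha1 ha6 h1, tok_un y a hy ha1 ha6 h1 h2,
      Or.inl ⟨a, ?_, by omega, toM_un y a hy ha1 ha6 h1 h2⟩⟩
    rw [← count_pos, count_toM y hy]
    exact h1

theorem main (k : ℕ) : ∀ n ∈ L, tok n ≤ k → PPosition (toM n) := by
  induction k using Nat.strong_induction_on with
  | _ k ih =>
    intro n hn hk Q hQ
    have hok := check n hn
    unfold ok at hok
    rw [Bool.and_eq_true, Bool.and_eq_true, decide_eq_true_eq] at hok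
    obtain ⟨⟨hlt, h0⟩, h1⟩ := hok
    rw [List.all_eq_true] at h1
    obtain ⟨y, hy, hty, rfl, hr⟩ : ∃ y, y < 16 ^ 6 ∧ tok y < tok n ∧ Q = toM y ∧
        reply y = true := by
      rcases hQ with ⟨a, ha, ha0, rfl⟩ | ⟨hne, rfl⟩
      · have hab := pos_of_mem ha
        have hd : 0 < dg n a := by
          rw [← count_toM n hlt]; exact count_pos.2 ha
        have h2 := h1 a (by simp; omega)
        rw [Bool.or_eq_true, Bool.and_eq_true, decide_eq_true_eq, decide_eq_true_eq] at h2
        rcases h2 with h2 | ⟨h2, h3⟩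
        · omega
        · exact ⟨un n a, un_lt n a hlt hab.1 hab.2 hd, tok_un n a hlt hab.1 hab.2 hd h2,
            (toM_un n a hlt hab.1 hab.2 hd h2).symm, h3⟩
      · have hn0 : n ≠ 0 := (toM_ne_zero n hlt).1 hne
        rw [Bool.or_eq_true, decide_eq_true_eq] at h0
        rcases h0 with h0 | h0
        · exact absurd h0 hn0
        · exact ⟨n / 16, lt_of_le_of_lt (Nat.div_le_self _ _) hlt, tok_all n hlt hn0,
            (toM_all n hlt).symm, h0⟩
    obtain ⟨z, hz, -, htz, hmove⟩ := reply_spec y hy hr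
    exact MoverWins.step _ _ hmove (ih (tok z) (by omega) z hz le_rfl)

/-- The position with six piles of size 5 and six piles of size 6 has `k = 12` piles, all of size
greater than `⌈12/3⌉ = 4`; it has six odd piles and `6 ∉ S_12`, but it is a P-position. -/
theorem result :
    PPosition (replicate 6 5 + replicate 6 6) ∧
    card (replicate 6 5 + replicate 6 6 : Multiset ℕ) = 12 ∧
    (∀ a ∈ (replicate 6 5 + replicate 6 6 : Multiset ℕ), ⌈((12 : ℚ) / 3)⌉ < (a : ℤ)) ∧
    card ((replicate 6 5 + replicate 6 6 : Multiset ℕ).filter (fun a => a % 2 = 1)) = 6 ∧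
    6 ∉ S 12 := by
  refine ⟨?_, by simp, ?_, by decide, ?_⟩
  · have h := main _ 6684672 (by decide) le_rfl
    have e : toM 6684672 = replicate 6 5 + replicate 6 6 := by decide
    rw [e] at h
    exact h
  · intro a ha
    have h4 : ⌈((12 : ℚ) / 3)⌉ = 4 := by norm_num
    rw [h4]
    simp only [mem_add, mem_replicate] at ha
    omega
  · simp [S]

end Pool.Agent.Results.MP_b8aaf5_co.TwelvePiles
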